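import Pool.Agent.Lib.MP_ef6aaf_al.EF.NStm

set_option autoImplicit false

/-!
Piece lst: the list of letters of `wordA`.
-/

namespace Pool.Agent.EF

open Finset Filter

private theorem lst_app (i : Fin 2) (u v : List (Fin 2 × Bool)) : nl i (u ++ v) = nl i u + nl i v := by
  simp [nl]

private theorem lst_rep (b : Bool) (n : ℕ) : nl 0 (List.replicate n ((0 : Fin 2), b)) = n ∧
    nl 1 (List.replicate n ((0 : Fin 2), b)) = 0 := by
  constructor <;> simp [nl, List.filter_replicate]

private theorem lst_pow (n : ℕ) : FreeGroup.mk (List.replicate n ((0 : Fin 2), true)) = FreeGroup.of 0 ^ n := by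
  induction n with
  | zero => rfl
  | succ n ih =>
    rw [List.replicate_succ, pow_succ', ← ih]
    rfl

private theorem lst_inv (n : ℕ) : FreeGroup.mk (List.replicate n ((0 : Fin 2), false)) =
    (FreeGroup.of 0)⁻¹ ^ n := by
  induction n with
  | zero => rfl
  | succ n ih =>
    rw [List.replicate_succ, pow_succ', ← ih]
    rfl

private theorem lst_run (m : ℤ) : ∃ r : List (Fin 2 × Bool), FreeGroup.mk r = FreeGroup.of 0 ^ m ∧
    (nl 0 r : ℤ) = |m| ∧ nl 1 r = 0 ∧ r.length = nl 0 r := by
  rcases Int.eq_nat_or_neg m with ⟨n, rfl | rfl⟩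
  · refine ⟨List.replicate n (0, true), ?_, ?_, (lst_rep true n).2, ?_⟩
    · rw [lst_pow, zpow_natCast]
    · rw [(lst_rep true n).1]; simp
    · rw [(lst_rep true n).1]; simp
  · refine ⟨List.replicate n (0, false), ?_, ?_, (lst_rep false n).2, ?_⟩
    · rw [lst_inv, zpow_neg, zpow_natCast, inv_pow]
    · rw [(lst_rep false n).1]; simp
    · rw [(lst_rep false n).1]; simp

theorem p_lst : S_lst := by
  intro l
  induction l with
  | zero =>
    intro c ε
    exact ⟨[], by simp [wordA]; rfl, by simp [nl], by simp [nl], by simp [nl]⟩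
  | succ l ih =>
    intro c ε
    obtain ⟨u, h1, h2, h3, h4⟩ := ih (fun i => c i.succ) (fun i => ε i.succ)
    obtain ⟨r, g1, g2, g3, g4⟩ := lst_run (c 0)
    have e0 : nl 0 (((1 : Fin 2), ε 0) :: u) = nl 0 u := by simp [nl]
    have e1 : nl 1 (((1 : Fin 2), ε 0) :: u) = nl 1 u + 1 := by simp [nl]
    refine ⟨r ++ ((1, ε 0) :: u), ?_, ?_, ?_, ?_⟩
    · have e2 : FreeGroup.mk (((1 : Fin 2), ε 0) :: u) =
          (if ε 0 then FreeGroup.of 1 else (FreeGroup.of 1)⁻¹) * FreeGroup.mk u := by
        cases h : ε 0 <;> rfl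
      rw [← FreeGroup.mul_mk, g1, e2, h1]
      simp only [wordA]
      rw [List.ofFn_succ, List.prod_cons, mul_assoc]
    · rw [lst_app, e0, Fin.sum_univ_succ]
      push_cast
      rw [g2, h2]
    · rw [lst_app, e1, g3, h3]; omega
    · rw [List.length_append, List.length_cons, lst_app, lst_app, e0, e1, g3, h4, g4]; omega

end Pool.Agent.EF
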