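import Pool.Agent.Lib.MP_ef6aaf_al.EF.NStm

set_option autoImplicit false

/-!
Piece min: the normal form of a minimal counterexample.
-/

namespace Pool.Agent.EF

open Finset Filter
open Pool.Agent.Lib.MP_ef6aaf_al (HaarOn)

private lemma min_pos (c : ℤ) (e e' : Bool) :
    |c + (if e' then 0 else 1) - (if e then 1 else 0)| = |c| + ((if e' = e then 1 else 0)
      - 2 * (if e' = e ∧ 0 < (if e then c else - c) then 1 else 0)) := by
  cases e <;> cases e' <;> simp <;> split_ifs with h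
  · rw [abs_of_nonpos (by omega), abs_of_neg h]; ring
  · rw [abs_of_nonneg (by omega), abs_of_nonneg (by omega)]; ring
  · rw [abs_of_nonneg (by omega), abs_of_pos h]; ring
  · rw [abs_of_nonpos (by omega), abs_of_nonpos (by omega)]; ring

private lemma min_neg (c : ℤ) (e e' : Bool) :
    |c + (if e' then 0 else -1) - (if e then -1 else 0)| = |c| + ((if e' = e then 1 else 0)
      - 2 * (if e' = e ∧ (if e then c else - c) < 0 then 1 else 0)) := by
  cases e <;> cases e' <;> simp <;> split_ifs with h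
  · rw [abs_of_nonneg (by omega), abs_of_pos h]; ring
  · rw [abs_of_nonpos (by omega), abs_of_nonpos (by omega)]; ring
  · rw [abs_of_nonpos (by omega), abs_of_neg h]; ring
  · rw [abs_of_nonneg (by omega), abs_of_nonneg (by omega)]; ring

private lemma min_sum {l : ℕ} (f g : Fin l → ℤ) (p q : Fin l → Prop) [DecidablePred p] [DecidablePred q]
    (h : ∀ i, g i = f i + ((if p i then 1 else 0) - 2 * (if q i then 1 else 0))) (hle : ∑ i, f i ≤ ∑ i, g i) :
    2 * (univ.filter q).card ≤ (univ.filter p).card := by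
  have e : ∑ i, g i = ∑ i, f i + (((univ.filter p).card : ℤ) - 2 * ((univ.filter q).card : ℤ)) := by
    simp_rw [h]
    rw [Finset.sum_add_distrib, Finset.sum_sub_distrib, ← Finset.mul_sum, Finset.sum_boole, Finset.sum_boole]
  rw [e] at hle
  omega

theorem p_min (hmov : S_mov) (hprm : S_prm) (hpar : S_par) (hlst : S_lst) (hred : S_red) (hshf : S_shf)
    (hsyl : S_syl) (hswl : S_swl) : S_min := by
  classical
  intro w hw hp
  obtain ⟨hprm1, hprm2, hprm3, hprm4⟩ := hprm
  let P : ℕ → Prop := fun N => ∃ (w' : FreeGroup (Fin 2)) (u : List (Fin 2 × Bool)),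
    HF w' ∧ ¬ Prim w' ∧ IsConj w' (FreeGroup.mk u) ∧ u.length = N
  have hex : ∃ N, P N := ⟨w.toWord.length, w, w.toWord, hw, hp, by rw [FreeGroup.mk_toWord], rfl⟩
  obtain ⟨N, hN⟩ : ∃ N, N = Nat.find hex := ⟨_, rfl⟩
  have hmin : ∀ (w'' : FreeGroup (Fin 2)) (u'' : List (Fin 2 × Bool)), HF w'' → ¬ Prim w'' →
      IsConj w'' (FreeGroup.mk u'') → N ≤ u''.length :=
    fun w'' u'' h1 h2 h3 => hN ▸ Nat.find_min' hex ⟨w'', u'', h1, h2, h3, rfl⟩
  obtain ⟨w₀, u₀, h1, h2, h3, h4⟩ := Nat.find_spec hex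
  rw [← hN] at h4
  obtain ⟨w', u, hHF, hnp, hconj, hlen, hle⟩ : ∃ (w' : FreeGroup (Fin 2)) (u : List (Fin 2 × Bool)),
      HF w' ∧ ¬ Prim w' ∧ IsConj w' (FreeGroup.mk u) ∧ u.length = N ∧ nl 1 u ≤ nl 0 u := by
    by_cases h : nl 1 u₀ ≤ nl 0 u₀
    · exact ⟨w₀, u₀, h1, h2, h3, h4, h⟩
    · obtain ⟨u', e1, e2, e3, e4, e5⟩ := hswl u₀
      refine ⟨swH w₀, u', (hmov w₀).1 h1, fun h' => h2 ((hmov w₀).2.2.2.1 h'), ?_, ?_, ?_⟩
      · rw [e1]; exact swH.map_isConj h3
      · rw [e4]; exact h4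
      · omega
  have hlN : u.length = nl 0 u + nl 1 u := by
    obtain ⟨u', e1, e2, e3, e4, e5⟩ := hswl u
    exact e5
  refine ⟨w', hHF, ?_⟩
  rcases Nat.eq_zero_or_pos (nl 1 u) with h0 | h0
  · left
    obtain ⟨t, ht⟩ := (hpar u).1 h0
    rw [ht] at hconj
    refine ⟨t, hconj, ?_, ?_⟩
    · rintro rfl; exact hnp (hprm1 _ _ hconj hprm2)
    · rintro rfl; exact hnp (hprm1 _ _ hconj hprm3)
  · right
    obtain ⟨l, c, ε, hl, hc1, hc2⟩ : ∃ (l : ℕ) (c : Fin l → ℤ) (ε : Fin l → Bool), l = nl 1 u ∧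
        IsConj (FreeGroup.mk u) (wordA c ε) ∧ ∑ i, |c i| ≤ (nl 0 u : ℤ) := by
      obtain ⟨c, ε, hc1, hc2⟩ := (hpar u).2 h0
      exact ⟨_, c, ε, rfl, hc1, hc2⟩
    have hwc : IsConj w' (wordA c ε) := hconj.trans hc1
    have hmin' : ∀ (w'' : FreeGroup (Fin 2)) (c'' : Fin l → ℤ), HF w'' → ¬ Prim w'' →
        IsConj w'' (wordA c'' ε) → (N : ℤ) ≤ ∑ i, |c'' i| + l := by
      intro w'' c'' g1 g2 g3
      obtain ⟨u'', e1, e2, e3, e4⟩ := hlst l c'' ε
      have := hmin w'' u'' g1 g2 (by rw [e1]; exact g3)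
      rw [e4, e3] at this
      rw [← e2]
      exact_mod_cast this
    have hsum : ∑ i, |c i| = (nl 0 u : ℤ) := by
      have := hmin' w' c hHF hnp hwc
      omega
    have hNl : (N : ℤ) = ∑ i, |c i| + l := by omega
    have hle' : (l : ℤ) ≤ ∑ i, |c i| := by omega
    have hl2 : 2 ≤ l := by
      by_contra hlt
      have hl1 : l = 1 := by omega
      subst hl1
      exact hnp (hprm1 _ _ hwc (hprm4 c ε))
    have hcr : ∀ i, ε (pv i) ≠ ε i → c i ≠ 0 := by
      intro i hi hci
      obtain ⟨u', g1, g2⟩ := hred l c ε i hi hci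
      have := hmin w' u' hHF hnp (hwc.trans g1)
      omega
    have hs1 : 2 * (univ.filter fun i => ε (pv i) = ε i ∧ 0 < (if ε i then c i else - c i)).card ≤
        (univ.filter fun i => ε (pv i) = ε i).card := by
      have hcj : IsConj (shH 1 w') (wordA (fun i => c i + (if ε (pv i) then 0 else 1) - (if ε i then 1 else 0)) ε) :=
        ((shH 1).map_isConj hwc).trans (hshf l c ε 1)
      have := hmin' _ _ ((hmov w').2.1 hHF) (fun h' => hnp ((hmov w').2.2.2.2.1 h')) hcj
      refine min_sum (fun i => |c i|) _ _ _ (fun i => min_pos (c i) (ε i) (ε (pv i))) ?_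
      omega
    have hs2 : 2 * (univ.filter fun i => ε (pv i) = ε i ∧ (if ε i then c i else - c i) < 0).card ≤
        (univ.filter fun i => ε (pv i) = ε i).card := by
      have hcj : IsConj (shH (-1) w') (wordA (fun i => c i + (if ε (pv i) then 0 else -1) - (if ε i then -1 else 0)) ε) :=
        ((shH (-1)).map_isConj hwc).trans (hshf l c ε (-1))
      have := hmin' _ _ ((hmov w').2.2.1 hHF) (fun h' => hnp ((hmov w').2.2.2.2.2 h')) hcj
      refine min_sum (fun i => |c i|) _ _ _ (fun i => min_neg (c i) (ε i) (ε (pv i))) ?_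
      omega
    by_cases hz : 2 * (univ.filter fun i => c i = 0).card < l
    · left
      exact ⟨l, c, ε, hl2, hwc, hcr, hle', hs1, hs2, hz⟩
    · right
      have hne : ∃ i, c i ≠ 0 := by
        by_contra hall
        push Not at hall
        have : ∑ i, |c i| = 0 := by
          apply Finset.sum_eq_zero
          intro i _
          rw [hall i, abs_zero]
        omega
      obtain ⟨a, b, ha, hb, hab, hsa, hsb⟩ := hsyl l c ε hcr hne
      have hcard : (univ.filter fun i => c i = 0).card + (univ.filter fun i => c i ≠ 0).card = l := by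
        have := Finset.card_filter_add_card_filter_not (s := (univ : Finset (Fin l))) (fun i => c i = 0)
        rw [Finset.card_univ, Fintype.card_fin] at this
        exact this
      have hpos : 1 ≤ (univ.filter fun i => c i ≠ 0).card := by
        obtain ⟨i, hi⟩ := hne
        exact Finset.card_pos.2 ⟨i, by simp [hi]⟩
      refine ⟨_, a, b, hpos, hwc.trans hab, ha, hb, ?_, ?_⟩
      · rw [hsa]; omega
      · rw [hsb]; omega

end Pool.Agent.EF
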