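import Pool.Agent.Lib.MP_ef6aaf_al.EF.NStm

set_option autoImplicit false

/-!
# MP_ef6aaf_al: parsing a list of letters into runs
-/

namespace Pool.Agent.EF

private def par_term (p : ℤ × Bool) : FreeGroup (Fin 2) :=
  FreeGroup.of 0 ^ p.1 * (if p.2 then FreeGroup.of 1 else (FreeGroup.of 1)⁻¹)

private theorem par_mk (i : Fin 2) (b : Bool) :
    FreeGroup.mk [(i, b)] = if b then FreeGroup.of i else (FreeGroup.of i)⁻¹ := by
  cases b <;> rfl

private theorem par_nl (j : Fin 2) (u : List (Fin 2 × Bool)) (i : Fin 2) (b : Bool) :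
    nl j (u ++ [(i, b)]) = nl j u + if i = j then 1 else 0 := by
  unfold nl
  rw [List.filter_append, List.length_append]
  by_cases h : i = j <;> simp [h]

private theorem par_parse (u : List (Fin 2 × Bool)) : ∃ (L : List (ℤ × Bool)) (t : ℤ),
    FreeGroup.mk u = (L.map par_term).prod * FreeGroup.of 0 ^ t ∧ L.length = nl 1 u ∧
      (L.map (fun p => |p.1|)).sum + |t| ≤ (nl 0 u : ℤ) := by
  induction u using List.reverseRecOn with
  | nil => exact ⟨[], 0, by simp [nl, FreeGroup.one_eq_mk]⟩
  | append_singleton u a ih =>
    obtain ⟨i, b⟩ := a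
    obtain ⟨L, t, h1, h2, h3⟩ := ih
    have hm : FreeGroup.mk (u ++ [(i, b)]) =
        FreeGroup.mk u * (if b then FreeGroup.of i else (FreeGroup.of i)⁻¹) := by
      rw [← par_mk, FreeGroup.mul_mk]
    rw [hm, h1]
    have hi : i = 0 ∨ i = 1 := by
      fin_cases i
      · left; rfl
      · right; rfl
    rcases hi with rfl | rfl
    · refine ⟨L, t + (if b then 1 else -1), ?_, ?_, ?_⟩
      · rw [mul_assoc]
        congr 1
        cases b
        · simp [zpow_add, zpow_neg]
        · simp [zpow_add]
      · rw [par_nl, h2]
        simp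
      · rw [par_nl]
        have h4 : |t + (if b then 1 else -1)| ≤ |t| + 1 := by
          refine (abs_add_le _ _).trans ?_
          cases b <;> simp
        rw [if_pos rfl, Nat.cast_add, Nat.cast_one]
        linarith
    · refine ⟨L ++ [(t, b)], 0, ?_, ?_, ?_⟩
      · rw [List.map_append, List.prod_append, zpow_zero, mul_one, mul_assoc]
        simp [par_term]
      · rw [par_nl, List.length_append, h2]
        simp
      · rw [par_nl, List.map_append, List.sum_append]
        have h0 : ((1 : Fin 2) = 0) = False := by simp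
        simp only [List.map_cons, List.map_nil, List.sum_cons, List.sum_nil, h0, if_false,
          abs_zero, add_zero]
        exact h3

private theorem par_word (n : ℕ) (L : List (ℤ × Bool)) (h : L.length = n) :
    ∃ (c : Fin n → ℤ) (ε : Fin n → Bool), (L.map par_term).prod = wordA c ε ∧
      ∑ i, |c i| = (L.map (fun p => |p.1|)).sum := by
  subst h
  refine ⟨fun i => (L.get i).1, fun i => (L.get i).2, ?_, ?_⟩
  · unfold wordA
    have h1 : L.map par_term = List.ofFn (fun i => par_term (L.get i)) := by
      conv_lhs => rw [← List.ofFn_get L]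
      rw [List.map_ofFn]
      rfl
    rw [h1]
    rfl
  · have h1 : L.map (fun p => |p.1|) = List.ofFn (fun i => |(L.get i).1|) := by
      conv_lhs => rw [← List.ofFn_get L]
      rw [List.map_ofFn]
      rfl
    rw [h1, List.sum_ofFn]

theorem p_par : S_par := by
  intro u
  obtain ⟨L, t, h1, h2, h3⟩ := par_parse u
  constructor
  · intro h0
    rw [h0, List.length_eq_zero_iff] at h2
    subst h2
    refine ⟨t, ?_⟩
    rw [h1]
    simp
  · intro hpos
    match L, h1, h2, h3 with
    | [], _, h2, _ =>
      rw [List.length_nil] at h2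
      omega
    | p :: L', h1, h2, h3 =>
      obtain ⟨c, ε, hc, hs⟩ := par_word (nl 1 u) ((t + p.1, p.2) :: L')
        (by rw [List.length_cons] at h2 ⊢; exact h2)
      refine ⟨c, ε, ?_, ?_⟩
      · rw [← hc, isConj_iff]
        refine ⟨FreeGroup.of 0 ^ t, ?_⟩
        rw [h1, List.map_cons, List.prod_cons, List.map_cons, List.prod_cons]
        simp only [par_term]
        rw [zpow_add]
        group
      · rw [hs]
        simp only [List.map_cons, List.sum_cons] at h3 ⊢
        have := abs_add_le t p.1
        linarith

end Pool.Agent.EF
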