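import Pool.Agent.Lib.MP_ef6aaf_al.EF.NStm

/-!
MP_ef6aaf_al, EF, piece `prm`: conjugates of primitive words are primitive, `x ^ (± 1)` and
`x ^ c y ^ (± 1)` are primitive.
-/

set_option autoImplicit false

namespace Pool.Agent.EF

open Finset Filter

/-- an automorphism from two mutually inverse homomorphisms given on generators -/
private theorem prm_aut (a b c d : FreeGroup (Fin 2))
    (h1 : FreeGroup.lift ![c, d] a = FreeGroup.of 0) (h2 : FreeGroup.lift ![c, d] b = FreeGroup.of 1)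
    (h3 : FreeGroup.lift ![a, b] c = FreeGroup.of 0) (h4 : FreeGroup.lift ![a, b] d = FreeGroup.of 1) :
    Prim a := by
  refine ⟨MonoidHom.toMulEquiv (FreeGroup.lift ![a, b]) (FreeGroup.lift ![c, d]) ?_ ?_, ?_⟩
  · ext i
    fin_cases i
    · simpa using h1
    · simpa using h2
  · ext i
    fin_cases i
    · simpa using h3
    · simpa using h4
  · simp

/-- piece `prm` -/
theorem p_prm : S_prm := by
  refine ⟨?_, ?_, ?_, ?_⟩
  · rintro w w' hc ⟨φ, hφ⟩
    obtain ⟨g, hg⟩ := isConj_iff.1 hc.symm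
    refine ⟨φ.trans (MulAut.conj g), ?_⟩
    simp only [MulEquiv.trans_apply, hφ, MulAut.conj_apply]
    exact hg
  · exact ⟨MulEquiv.refl _, by simp⟩
  · refine prm_aut _ (FreeGroup.of 1) (FreeGroup.of 0 ^ (-1 : ℤ)) (FreeGroup.of 1) ?_ ?_ ?_ ?_ <;>
      simp
  · intro c ε
    have hw : wordA c ε = FreeGroup.of 0 ^ c 0 * (if ε 0 then FreeGroup.of 1 else (FreeGroup.of 1)⁻¹) := by
      simp [wordA]
    rw [hw]
    cases h : ε 0
    · refine prm_aut _ (FreeGroup.of 0) (FreeGroup.of 1) ((FreeGroup.of 1 ^ (- c 0) * FreeGroup.of 0)⁻¹) ?_ ?_ ?_ ?_ <;>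
        simp
    · refine prm_aut _ (FreeGroup.of 0) (FreeGroup.of 1) (FreeGroup.of 1 ^ (- c 0) * FreeGroup.of 0) ?_ ?_ ?_ ?_ <;>
        simp

end Pool.Agent.EF
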