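import Pool.Agent.Lib.MP_ef6aaf_al.EF.NStm

set_option autoImplicit false

/-!
# MP_ef6aaf_al, piece red: shortening a word which is not cyclically reduced
-/

namespace Pool.Agent.EF

open Finset

private def rdA (p : ℤ × Bool) : FreeGroup (Fin 2) :=
  FreeGroup.of 0 ^ p.1 * (if p.2 then FreeGroup.of 1 else (FreeGroup.of 1)⁻¹)

private def rdT (l : ℕ) (f : Fin l → ℤ × Bool) : Prop :=
  ∃ u : List (Fin 2 × Bool), IsConj ((List.ofFn fun i => rdA (f i)).prod) (FreeGroup.mk u) ∧
    (u.length : ℤ) + 2 ≤ ∑ i, |(f i).1| + l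

private lemma rd_pow (i : Fin 2) (b : Bool) (n : ℕ) :
    FreeGroup.mk (List.replicate n (i, b)) = (FreeGroup.mk [(i, b)]) ^ n := by
  induction n with
  | zero => simp [FreeGroup.one_eq_mk]
  | succ n ih =>
    rw [List.replicate_succ', pow_succ, ← ih, FreeGroup.mul_mk]

private lemma rd_x (t : ℤ) : ∃ u : List (Fin 2 × Bool), FreeGroup.mk u = FreeGroup.of 0 ^ t ∧
    (u.length : ℤ) = |t| := by
  obtain ⟨n, rfl | rfl⟩ := t.eq_nat_or_neg
  · refine ⟨List.replicate n (0, true), ?_, ?_⟩
    · rw [rd_pow]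
      rfl
    · simp
  · refine ⟨List.replicate n (0, false), ?_, ?_⟩
    · rw [rd_pow, zpow_neg, zpow_natCast, ← inv_pow]
      rfl
    · simp

private lemma rd_list (L : List (ℤ × Bool)) : ∃ u : List (Fin 2 × Bool),
    FreeGroup.mk u = (L.map rdA).prod ∧ (u.length : ℤ) = (L.map fun p => |p.1|).sum + L.length := by
  induction L with
  | nil => exact ⟨[], by simp [FreeGroup.one_eq_mk], by simp⟩
  | cons p L ih =>
    obtain ⟨u, h1, h2⟩ := ih
    obtain ⟨v, g1, g2⟩ := rd_x p.1
    refine ⟨v ++ ((1, p.2) :: u), ?_, ?_⟩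
    · rw [List.map_cons, List.prod_cons, ← h1, rdA, ← g1, ← List.singleton_append, ← FreeGroup.mul_mk,
        ← FreeGroup.mul_mk, mul_assoc]
      congr 2
      cases p.2
      · rfl
      · rfl
    · rw [List.length_append, List.length_cons, List.map_cons, List.sum_cons, List.length_cons]
      push_cast
      rw [h2, g2]
      ring

private lemma rd_base (n : ℕ) (f : Fin (n + 1) → ℤ × Bool) (h0 : (f 0).1 = 0)
    (h : (f (Fin.last n)).2 ≠ (f 0).2) : rdT (n + 1) f := by
  cases n with
  | zero => exact absurd rfl h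
  | succ n =>
    obtain ⟨u, h1, h2⟩ := rd_list (List.ofFn fun i : Fin n => f i.castSucc.succ)
    obtain ⟨v, g1, g2⟩ := rd_x (f (Fin.last (n + 1))).1
    refine ⟨u ++ v, ?_, ?_⟩
    · rw [← FreeGroup.mul_mk, h1, g1, List.ofFn_succ, List.ofFn_succ'
        (f := fun i : Fin (n + 1) => rdA (f i.succ)), List.concat_eq_append, List.prod_cons,
        List.prod_append, List.prod_singleton, Fin.succ_last, List.map_ofFn]
      have e0 : rdA (f 0) = if (f 0).2 then FreeGroup.of 1 else (FreeGroup.of 1)⁻¹ := by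
        rw [rdA, h0, zpow_zero, one_mul]
      have e1 : rdA (f (Fin.last (n + 1))) * rdA (f 0) = FreeGroup.of 0 ^ (f (Fin.last (n + 1))).1 := by
        rw [e0, rdA, mul_assoc]
        cases h3 : (f (Fin.last (n + 1))).2 <;> cases h4 : (f 0).2
        · exact absurd (h3.trans h4.symm) h
        · simp
        · simp
        · exact absurd (h3.trans h4.symm) h
      rw [← e1]
      refine isConj_iff.2 ⟨(rdA (f 0))⁻¹, ?_⟩
      rw [inv_inv, inv_mul_cancel_left, mul_assoc]
      rfl
    · rw [List.length_append]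
      push_cast
      rw [h2, g2, List.map_ofFn, List.sum_ofFn, List.length_ofFn, Fin.sum_univ_succ, h0,
        Fin.sum_univ_castSucc (fun i : Fin (n + 1) => |(f i.succ).1|), Fin.succ_last]
      simp only [Function.comp_def, abs_zero]
      have : (Nat.succ n).succ = n + 2 := rfl
      push_cast
      linarith

private lemma rd_fr (n : ℕ) (i : Fin n) : finRotate (n + 1) i.castSucc = i.succ := by
  have : i.castSucc = ⟨(i : ℕ), by omega⟩ := Fin.ext rfl
  rw [this, finRotate_of_lt i.isLt]
  exact Fin.ext rfl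

private lemma rd_rot (n : ℕ) (f : Fin (n + 1) → ℤ × Bool)
    (h : rdT (n + 1) (fun i => f (finRotate (n + 1) i))) : rdT (n + 1) f := by
  obtain ⟨u, s2, s3⟩ := h
  refine ⟨u, ?_, ?_⟩
  · refine IsConj.trans ?_ s2
    rw [List.ofFn_succ, List.ofFn_succ' (f := fun i => rdA (f (finRotate (n + 1) i))),
      List.concat_eq_append, List.prod_cons, List.prod_append, List.prod_singleton]
    have e1 : (fun i : Fin n => rdA (f (finRotate (n + 1) i.castSucc))) =
        fun i : Fin n => rdA (f i.succ) := by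
      funext i
      rw [rd_fr]
    have e2 : finRotate (n + 1) (Fin.last n) = 0 := finRotate_last
    rw [e1, e2]
    refine isConj_iff.2 ⟨(rdA (f 0))⁻¹, ?_⟩
    rw [inv_inv, inv_mul_cancel_left]
  · have e : ∑ i, |(f (finRotate (n + 1) i)).1| = ∑ i, |(f i).1| :=
      Equiv.sum_comp (finRotate (n + 1)) (fun i => |(f i).1|)
    rw [← e]
    exact s3

private lemma rd_all (n : ℕ) (k : ℕ) : ∀ (f : Fin (n + 1) → ℤ × Bool) (i : Fin (n + 1)), (i : ℕ) = k →
    (f (pv i)).2 ≠ (f i).2 → (f i).1 = 0 → rdT (n + 1) f := by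
  induction k with
  | zero =>
    intro f i hi h1 h2
    have e : i = 0 := Fin.ext (by simpa using hi)
    subst e
    have e2 : pv (0 : Fin (n + 1)) = Fin.last n := by
      rw [pv, Equiv.symm_apply_eq]
      exact finRotate_last.symm
    rw [e2] at h1
    exact rd_base n f h2 h1
  | succ k ih =>
    intro f i hi h1 h2
    apply rd_rot
    have hk : k < n := by omega
    have e : i = finRotate (n + 1) ⟨k, by omega⟩ := by
      rw [finRotate_of_lt hk]
      exact Fin.ext hi
    have e1 : pv i = ⟨k, by omega⟩ := by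
      rw [pv, Equiv.symm_apply_eq]
      exact e
    refine ih (fun i => f (finRotate (n + 1) i)) ⟨k, by omega⟩ rfl ?_ ?_
    · have e3 : finRotate (n + 1) (pv ⟨k, by omega⟩) = ⟨k, by omega⟩ := by
        rw [pv, Equiv.apply_symm_apply]
      show (f (finRotate (n + 1) (pv ⟨k, by omega⟩))).2 ≠ (f (finRotate (n + 1) ⟨k, by omega⟩)).2
      rw [e3, ← e, ← e1]
      exact h1
    · show (f (finRotate (n + 1) ⟨k, by omega⟩)).1 = 0
      rw [← e]
      exact h2

theorem p_red : S_red := by
  intro l c ε i h1 h2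
  cases l with
  | zero => exact i.elim0
  | succ n =>
    obtain ⟨u, s1, s2⟩ := rd_all n i (fun j => (c j, ε j)) i rfl h1 h2
    exact ⟨u, s1, s2⟩

end Pool.Agent.EF
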