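import Pool.Agent.Lib.MP_ef6aaf_al.EF.NStm

set_option autoImplicit false

/-!
# MP_ef6aaf_al, piece shf: the shift `y ↦ x⁻ᵐ y` on the words `wordA`
-/

namespace Pool.Agent.EF

open Finset

private lemma shf_prod {G : Type*} [Group G] (n : ℕ) : ∀ (A D : Fin (n + 1) → G),
    (List.ofFn fun i => A i * D i).prod =
      A 0 * (List.ofFn fun i : Fin n => D i.castSucc * A i.succ).prod * D (Fin.last n) := by
  induction n with
  | zero =>
    intro A D
    simp
  | succ n ih =>
    intro A D
    rw [List.ofFn_succ, List.prod_cons, ih (fun i => A i.succ) (fun i => D i.succ), List.ofFn_succ,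
      List.prod_cons]
    simp only [Fin.castSucc_zero, Fin.succ_castSucc, Fin.succ_last, mul_assoc]

private lemma shf_pv0 (n : ℕ) : pv (0 : Fin (n + 1)) = Fin.last n := by
  rw [pv, Equiv.symm_apply_eq]
  exact finRotate_last.symm

private lemma shf_pvs (n : ℕ) (i : Fin n) : pv i.succ = i.castSucc := by
  rw [pv, Equiv.symm_apply_eq]
  have : i.castSucc = ⟨(i : ℕ), by omega⟩ := Fin.ext rfl
  rw [this, finRotate_of_lt i.isLt]
  exact Fin.ext rfl

private lemma shf_conj {G : Type*} [Group G] (n : ℕ) (A D : Fin (n + 1) → G) :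
    IsConj (List.ofFn fun i => A i * D i).prod (List.ofFn fun i => D (pv i) * A i).prod := by
  rw [shf_prod, List.ofFn_succ, List.prod_cons, shf_pv0]
  simp only [shf_pvs]
  refine isConj_iff.2 ⟨D (Fin.last n), ?_⟩
  simp only [mul_assoc, mul_inv_cancel, mul_one]

private lemma shf_img (m c : ℤ) (b : Bool) :
    shH m (FreeGroup.of 0 ^ c * (if b then FreeGroup.of 1 else (FreeGroup.of 1)⁻¹)) =
      (FreeGroup.of 0 ^ (c - if b then m else 0) * (if b then FreeGroup.of 1 else (FreeGroup.of 1)⁻¹)) *
        FreeGroup.of 0 ^ (if b then 0 else m) := by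
  have h0 : shH m (FreeGroup.of 0) = FreeGroup.of 0 := by simp [shH]
  have h1 : shH m (FreeGroup.of 1) = FreeGroup.of 0 ^ (-m) * FreeGroup.of 1 := by simp [shH]
  rw [map_mul, map_zpow, h0]
  cases b
  · simp [h1, mul_assoc]
  · simp only [if_true, h1, zpow_zero, mul_one, sub_eq_add_neg, zpow_add, mul_assoc]

theorem p_shf : S_shf := by
  intro l c ε m
  cases l with
  | zero => simp [wordA]
  | succ n =>
    have e1 : shH m (wordA c ε) = (List.ofFn fun i =>
        (FreeGroup.of 0 ^ (c i - if ε i then m else 0) *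
          (if ε i then FreeGroup.of 1 else (FreeGroup.of (1 : Fin 2))⁻¹)) *
        FreeGroup.of 0 ^ (if ε i then 0 else m)).prod := by
      rw [wordA, map_list_prod, List.map_ofFn]
      congr 2
      funext i
      exact shf_img m (c i) (ε i)
    rw [e1]
    refine (shf_conj n _ (fun i => FreeGroup.of 0 ^ (if ε i then 0 else m))).trans ?_
    have e2 : (List.ofFn fun i => FreeGroup.of 0 ^ (if ε (pv i) then 0 else m) *
        (FreeGroup.of 0 ^ (c i - if ε i then m else 0) *
          (if ε i then FreeGroup.of 1 else (FreeGroup.of (1 : Fin 2))⁻¹))).prod =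
        wordA (fun i => c i + (if ε (pv i) then 0 else m) - (if ε i then m else 0)) ε := by
      rw [wordA]
      congr 2
      funext i
      rw [← mul_assoc, ← zpow_add]
      congr 2
      ring
    rw [e2]

end Pool.Agent.EF
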