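import Pool.Agent.Lib.MP_ef6aaf_al.EF.NStm

set_option autoImplicit false

/-!
# MP_ef6aaf_al, EF: swap of the letters of a list
-/

namespace Pool.Agent.EF

private theorem swl_letter (p : Fin 2 × Bool) :
    FreeGroup.mk [(1 - p.1, p.2)] = swH (FreeGroup.mk [p]) := by
  obtain ⟨i, b⟩ := p
  have h1 : ∀ j : Fin 2, FreeGroup.mk [(j, true)] = FreeGroup.of j := fun j => rfl
  have h2 : ∀ j : Fin 2, FreeGroup.mk [(j, false)] = (FreeGroup.of j)⁻¹ := fun j => rfl
  fin_cases i <;> cases b
  · change FreeGroup.mk [((1 : Fin 2), false)] = swH (FreeGroup.mk [((0 : Fin 2), false)])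
    rw [h2, h2, map_inv, swH, FreeGroup.lift_apply_of]
    rfl
  · change FreeGroup.mk [((1 : Fin 2), true)] = swH (FreeGroup.mk [((0 : Fin 2), true)])
    rw [h1, h1, swH, FreeGroup.lift_apply_of]
    rfl
  · change FreeGroup.mk [((0 : Fin 2), false)] = swH (FreeGroup.mk [((1 : Fin 2), false)])
    rw [h2, h2, map_inv, swH, FreeGroup.lift_apply_of]
    rfl
  · change FreeGroup.mk [((0 : Fin 2), true)] = swH (FreeGroup.mk [((1 : Fin 2), true)])
    rw [h1, h1, swH, FreeGroup.lift_apply_of]
    rfl

private theorem swl_nl_cons (i : Fin 2) (p : Fin 2 × Bool) (u : List (Fin 2 × Bool)) :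
    nl i (p :: u) = (if p.1 = i then 1 else 0) + nl i u := by
  rw [nl, nl, List.filter_cons]
  by_cases h : p.1 = i
  · simp [h, add_comm]
  · simp [h]

theorem p_swl : S_swl := by
  intro u
  refine ⟨u.map fun p => (1 - p.1, p.2), ?_, ?_, ?_, ?_, ?_⟩
  · induction u with
    | nil => exact (map_one swH).symm
    | cons p u ih =>
      have h1 : FreeGroup.mk (p :: u) = FreeGroup.mk [p] * FreeGroup.mk u := rfl
      have h2 : FreeGroup.mk ((p :: u).map fun p => ((1 - p.1 : Fin 2), p.2)) =
        FreeGroup.mk [((1 - p.1 : Fin 2), p.2)] *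
          FreeGroup.mk (u.map fun p => ((1 - p.1 : Fin 2), p.2)) := rfl
      rw [h2, h1, map_mul, ← swl_letter, ih]
  · induction u with
    | nil => rfl
    | cons p u ih =>
      rw [List.map_cons, swl_nl_cons, swl_nl_cons, ih]
      congr 1
      obtain ⟨i, b⟩ := p
      fin_cases i <;> rfl
  · induction u with
    | nil => rfl
    | cons p u ih =>
      rw [List.map_cons, swl_nl_cons, swl_nl_cons, ih]
      congr 1
      obtain ⟨i, b⟩ := p
      fin_cases i <;> rfl
  · rw [List.length_map]
  · induction u with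
    | nil => rfl
    | cons p u ih =>
      rw [swl_nl_cons, swl_nl_cons, List.length_cons, ih]
      have h : ((if p.1 = 0 then 1 else 0) + (if p.1 = 1 then 1 else 0) : ℕ) = 1 := by
        obtain ⟨i, b⟩ := p
        fin_cases i <;> rfl
      omega

end Pool.Agent.EF
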