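import Pool.Agent.Lib.MP_ef6aaf_al.EF.NStm

set_option autoImplicit false

/-!
# MP_ef6aaf_al, piece syl: syllable form
-/

namespace Pool.Agent.EF

open Finset

private def syA (p : ℤ × Bool) : FreeGroup (Fin 2) :=
  FreeGroup.of 0 ^ p.1 * (if p.2 then FreeGroup.of 1 else (FreeGroup.of 1)⁻¹)

private def syS (p : ℤ × ℤ) : FreeGroup (Fin 2) := FreeGroup.of 0 ^ p.1 * FreeGroup.of 1 ^ p.2

private def sg (e : Bool) : ℤ := if e then 1 else -1

private def syO : Bool → List (ℤ × Bool) → Prop
  | _, [] => True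
  | e, p :: L => (e ≠ p.2 → p.1 ≠ 0) ∧ syO p.2 L

private lemma syA_eq (p : ℤ × Bool) : syA p = FreeGroup.of 0 ^ p.1 * FreeGroup.of 1 ^ (sg p.2) := by
  unfold syA sg
  cases p.2 <;> simp

private lemma sg_ne (e : Bool) (k : ℕ) (hk : 1 ≤ k) : sg e * k ≠ 0 := by
  have : (k : ℤ) ≠ 0 := by omega
  cases e <;> simp [sg] <;> omega

private lemma sg_abs (e : Bool) (k : ℕ) : |sg e * k| = k := by
  cases e <;> simp [sg]

private lemma sy_main (L : List (ℤ × Bool)) : ∀ (c : ℤ) (e : Bool) (k : ℕ), c ≠ 0 → 1 ≤ k →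
    syO e L → ∃ S : List (ℤ × ℤ), (∀ p ∈ S, p.1 ≠ 0 ∧ p.2 ≠ 0) ∧
      FreeGroup.of 0 ^ c * FreeGroup.of 1 ^ (sg e * k) * (L.map syA).prod = (S.map syS).prod ∧
      S.length = 1 + (L.map fun p => if p.1 ≠ 0 then 1 else 0).sum ∧
      (S.map fun p => |p.1|).sum = |c| + (L.map fun p => |p.1|).sum ∧
      (S.map fun p => |p.2|).sum = (k : ℤ) + L.length := by
  induction L with
  | nil =>
    intro c e k hc hk _
    refine ⟨[(c, sg e * k)], ?_, ?_, ?_, ?_, ?_⟩
    · intro p hp
      rw [List.mem_singleton] at hp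
      subst hp
      exact ⟨hc, sg_ne e k hk⟩
    · simp [syS]
    · simp
    · simp
    · simp only [List.map_cons, List.map_nil, List.sum_cons, List.sum_nil, sg_abs, List.length_nil]
      simp
  | cons q L ih =>
    intro c e k hc hk ho
    obtain ⟨c', e'⟩ := q
    obtain ⟨h1, h2⟩ := ho
    by_cases hc' : c' = 0
    · have he : e = e' := by
        by_contra h
        exact h1 h hc'
      subst hc'
      subst he
      obtain ⟨S, s1, s2, s3, s4, s5⟩ := ih c e (k + 1) hc (by omega) h2
      refine ⟨S, s1, ?_, ?_, ?_, ?_⟩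
      · rw [← s2, List.map_cons, List.prod_cons, syA_eq]
        change FreeGroup.of 0 ^ c * FreeGroup.of 1 ^ (sg e * k) *
          (FreeGroup.of 0 ^ (0 : ℤ) * FreeGroup.of 1 ^ (sg e) * (L.map syA).prod) = _
        rw [zpow_zero, one_mul]
        push_cast
        rw [mul_add, mul_one, zpow_add]
        simp only [mul_assoc]
      · rw [s3, List.map_cons, List.sum_cons]
        simp
      · rw [s4, List.map_cons, List.sum_cons]
        simp
      · rw [s5, List.length_cons]
        push_cast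
        ring
    · obtain ⟨S, s1, s2, s3, s4, s5⟩ := ih c' e' 1 hc' le_rfl h2
      refine ⟨(c, sg e * k) :: S, ?_, ?_, ?_, ?_, ?_⟩
      · intro p hp
        rcases List.mem_cons.1 hp with h | h
        · subst h
          exact ⟨hc, sg_ne e k hk⟩
        · exact s1 p h
      · rw [List.map_cons, List.prod_cons, List.map_cons, List.prod_cons, ← s2, syA_eq]
        simp [syS, mul_assoc]
      · rw [List.length_cons, s3, List.map_cons, List.sum_cons]
        simp only [ne_eq, hc', not_false_eq_true, if_true]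
        omega
      · rw [List.map_cons, List.sum_cons, s4, List.map_cons, List.sum_cons]
      · rw [List.map_cons, List.sum_cons, s5, List.length_cons, sg_abs]
        push_cast
        ring

private lemma sy_chain (n : ℕ) : ∀ f : Fin (n + 1) → ℤ × Bool,
    (∀ i : Fin n, (f i.castSucc).2 ≠ (f i.succ).2 → (f i.succ).1 ≠ 0) →
    syO (f 0).2 (List.ofFn fun i : Fin n => f i.succ) := by
  induction n with
  | zero =>
    intro f _
    simp [syO]
  | succ n ih =>
    intro f h
    rw [List.ofFn_succ]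
    refine ⟨h 0, ?_⟩
    exact ih (fun i => f i.succ) (fun i => h i.succ)

private def syT (l : ℕ) (f : Fin l → ℤ × Bool) : Prop :=
  ∃ S : List (ℤ × ℤ), (∀ p ∈ S, p.1 ≠ 0 ∧ p.2 ≠ 0) ∧
    IsConj ((List.ofFn fun i => syA (f i)).prod) ((S.map syS).prod) ∧
    S.length = ∑ i, (if (f i).1 ≠ 0 then 1 else 0) ∧
    (S.map fun p => |p.1|).sum = ∑ i, |(f i).1| ∧
    (S.map fun p => |p.2|).sum = (l : ℤ)

private lemma sy_base (n : ℕ) (f : Fin (n + 1) → ℤ × Bool) (h0 : (f 0).1 ≠ 0)
    (h : ∀ i : Fin n, (f i.castSucc).2 ≠ (f i.succ).2 → (f i.succ).1 ≠ 0) : syT (n + 1) f := by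
  obtain ⟨S, s1, s2, s3, s4, s5⟩ := sy_main (List.ofFn fun i : Fin n => f i.succ) (f 0).1 (f 0).2 1
    h0 le_rfl (sy_chain n f h)
  refine ⟨S, s1, ?_, ?_, ?_, ?_⟩
  · rw [← s2, List.ofFn_succ, List.prod_cons, syA_eq, List.map_ofFn]
    simp only [Nat.cast_one, mul_one]
    exact IsConj.refl _
  · rw [s3, List.map_ofFn, List.sum_ofFn, Fin.sum_univ_succ]
    simp [h0]
  · rw [s4, List.map_ofFn, List.sum_ofFn, Fin.sum_univ_succ]
    rfl
  · rw [s5, List.length_ofFn]
    push_cast
    ring

private lemma sy_fr (n : ℕ) (i : Fin n) : finRotate (n + 1) i.castSucc = i.succ := by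
  have : i.castSucc = ⟨(i : ℕ), by omega⟩ := Fin.ext rfl
  rw [this, finRotate_of_lt i.isLt]
  exact Fin.ext rfl

private lemma sy_rot (n : ℕ) (f : Fin (n + 1) → ℤ × Bool)
    (h : syT (n + 1) (fun i => f (finRotate (n + 1) i))) : syT (n + 1) f := by
  obtain ⟨S, s1, s2, s3, s4, s5⟩ := h
  refine ⟨S, s1, ?_, ?_, ?_, s5⟩
  · refine IsConj.trans ?_ s2
    rw [List.ofFn_succ, List.ofFn_succ' (f := fun i => syA (f (finRotate (n + 1) i))),
      List.concat_eq_append, List.prod_cons, List.prod_append, List.prod_singleton]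
    have e1 : (fun i : Fin n => syA (f (finRotate (n + 1) i.castSucc))) =
        fun i : Fin n => syA (f i.succ) := by
      funext i
      rw [sy_fr]
    have e2 : finRotate (n + 1) (Fin.last n) = 0 := finRotate_last
    rw [e1, e2]
    rw [isConj_iff]
    refine ⟨(syA (f 0))⁻¹, ?_⟩
    group
  · rw [s3]
    exact Equiv.sum_comp (finRotate (n + 1)) (fun i => if (f i).1 ≠ 0 then 1 else 0)
  · rw [s4]
    exact Equiv.sum_comp (finRotate (n + 1)) (fun i => |(f i).1|)

private lemma sy_all (n k : ℕ) : ∀ f : Fin (n + 1) → ℤ × Bool,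
    (∀ i, (f (pv i)).2 ≠ (f i).2 → (f i).1 ≠ 0) →
    (∃ i : Fin (n + 1), (i : ℕ) = k ∧ (f i).1 ≠ 0) → syT (n + 1) f := by
  induction k with
  | zero =>
    intro f h ⟨i, hi, hf⟩
    have hi0 : i = 0 := Fin.ext hi
    subst hi0
    refine sy_base n f hf ?_
    intro j hj
    refine h j.succ ?_
    have : pv j.succ = j.castSucc := by
      unfold pv
      rw [Equiv.symm_apply_eq, sy_fr]
    rw [this]
    exact hj
  | succ k ih =>
    intro f h ⟨i, hi, hf⟩
    refine sy_rot n f (ih _ ?_ ?_)
    · intro j hj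
      refine h (finRotate (n + 1) j) ?_
      have e1 : pv (finRotate (n + 1) j) = j := by
        unfold pv
        exact Equiv.symm_apply_apply _ _
      have e2 : finRotate (n + 1) (pv j) = j := by
        unfold pv
        exact Equiv.apply_symm_apply _ _
      rw [e1]
      rw [e2] at hj
      exact hj
    · have hk : k < n := by
        have := i.isLt
        omega
      refine ⟨⟨k, by omega⟩, rfl, ?_⟩
      have : finRotate (n + 1) ⟨k, by omega⟩ = i := by
        rw [finRotate_of_lt hk]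
        exact Fin.ext hi.symm
      rw [this]
      exact hf

theorem p_syl : S_syl := by
  intro l c ε h ⟨i, hi⟩
  cases l with
  | zero => exact i.elim0
  | succ n =>
    obtain ⟨S, s1, s2, s3, s4, s5⟩ := sy_all n i (fun i => (c i, ε i)) h ⟨i, rfl, hi⟩
    have hlen : (univ.filter fun i => c i ≠ 0).card = S.length := by
      rw [s3, Finset.card_filter]
    rw [hlen]
    refine ⟨fun j => (S.get j).1, fun j => (S.get j).2, ?_, ?_, ?_, ?_, ?_⟩
    · intro j
      exact (s1 _ (List.get_mem S j)).1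
    · intro j
      exact (s1 _ (List.get_mem S j)).2
    · have e1 : wordS (fun j => (S.get j).1) (fun j => (S.get j).2) = (S.map syS).prod := by
        unfold wordS
        congr 1
        conv_rhs => rw [← List.ofFn_get S]
        rw [List.map_ofFn]
        rfl
      rw [e1]
      exact s2
    · have e1 : (S.map fun p => |p.1|).sum = ∑ j, |(S.get j).1| := by
        conv_lhs => rw [← List.ofFn_get S]
        rw [List.map_ofFn, List.sum_ofFn]
        rfl
      rw [← e1, s4]
    · have e1 : (S.map fun p => |p.2|).sum = ∑ j, |(S.get j).2| := by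
        conv_lhs => rw [← List.ofFn_get S]
        rw [List.map_ofFn, List.sum_ofFn]
        rfl
      rw [← e1, s5]

end Pool.Agent.EF
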