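import Pool.Agent.Lib.MP_ef6aaf_al.EF.NStm
import Pool.Agent.Lib.MP_ef6aaf_al.Base

set_option autoImplicit false

/-!
Piece mov: elementary automorphisms.
-/

open MeasureTheory Matrix Filter
open scoped Matrix.Norms.L2Operator

namespace Pool.Agent.EF

open Pool.Agent.Lib.MP_ef6aaf_al (HaarOn U Mn)

private lemma mov_sc (n : ℕ) : SecondCountableTopology (U n) := by
  have : SecondCountableTopology (Mn n) :=
    inferInstanceAs (SecondCountableTopology (Fin n → Fin n → ℂ))
  exact inferInstanceAs (SecondCountableTopology {x : Mn n // x ∈ Matrix.unitaryGroup (Fin n) ℂ})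

/-- word maps are measurable -/
private lemma mov_meas {n : ℕ} [MeasurableSpace (U n)] [BorelSpace (U n)]
    (g : FreeGroup (Fin 2)) : Measurable (fun f : Fin 2 → U n => FreeGroup.lift f g) := by
  have := mov_sc n
  induction g using FreeGroup.induction_on with
  | C1 => simp only [map_one]; exact measurable_const
  | of i => simp only [FreeGroup.lift_apply_of]; exact measurable_pi_apply i
  | inv_of i h => simp only [map_inv]; exact h.inv
  | mul a b ha hb => simp only [map_mul]; exact ha.mul hb

/-- the general principle -/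
private lemma mov_gen (φ : FreeGroup (Fin 2) →* FreeGroup (Fin 2))
    (T : ∀ n, U n × U n → U n × U n)
    (hT : ∀ n (q : Fin 2 → U n), T n (q 0, q 1) =
      (FreeGroup.lift q (φ (FreeGroup.of 0)), FreeGroup.lift q (φ (FreeGroup.of 1))))
    (hT' : ∀ n [MeasurableSpace (U n)] [BorelSpace (U n)] (μ : Measure (U n))
      [IsProbabilityMeasure μ] [μ.IsMulLeftInvariant],
      MeasurePreserving (T n) (μ.prod μ) (μ.prod μ))
    (w : FreeGroup (Fin 2)) (n : ℕ) (hw : HaarOn w n) : HaarOn (φ w) n := by
  intro _ _ μ _ _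
  let Φ : (Fin 2 → U n) → (Fin 2 → U n) := fun q i => FreeGroup.lift q (φ (FreeGroup.of i))
  have hΦm : Measurable Φ := measurable_pi_lambda _ fun i => mov_meas _
  have e1 : (fun f : Fin 2 → U n => FreeGroup.lift f (φ w)) =
      (fun f : Fin 2 → U n => FreeGroup.lift f w) ∘ Φ := by
    funext q
    show FreeGroup.lift q (φ w) = FreeGroup.lift (Φ q) w
    have : (FreeGroup.lift q).comp φ = FreeGroup.lift (Φ q) := by
      apply FreeGroup.ext_hom
      intro i
      simp [Φ]
    exact congrArg (fun F => F w) (congrArg DFunLike.coe this)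
  have e2 : Measure.map Φ (Measure.pi fun _ => μ) = Measure.pi fun _ => μ := by
    have h1 := measurePreserving_finTwoArrow μ
    have h2 := hT' n μ
    have h3 : MeasurePreserving (MeasurableEquiv.finTwoArrow (α := U n)).symm
        (μ.prod μ) (Measure.pi fun _ => μ) := h1.symm _
    have h4 := h3.comp (h2.comp h1)
    have e3 : ((MeasurableEquiv.finTwoArrow (α := U n)).symm ∘
        (T n ∘ (MeasurableEquiv.finTwoArrow (α := U n)))) = Φ := by
      funext q
      apply (MeasurableEquiv.finTwoArrow (α := U n)).injective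
      simp only [Function.comp_apply, MeasurableEquiv.apply_symm_apply]
      exact hT n q
    rw [e3] at h4
    exact h4.map_eq
  rw [e1, ← Measure.map_map (mov_meas w) hΦm, e2]
  exact hw μ

private lemma swH_comp : swH.comp swH = MonoidHom.id _ := by
  apply FreeGroup.ext_hom
  intro i
  fin_cases i <;> simp [swH]

private lemma shH_comp (m : ℤ) : (shH m).comp (shH (-m)) = MonoidHom.id _ := by
  apply FreeGroup.ext_hom
  intro i
  fin_cases i
  · simp [shH]
  · simp [shH]

private lemma shH_comp' (m : ℤ) : (shH (-m)).comp (shH m) = MonoidHom.id _ := by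
  have := shH_comp (-m)
  rwa [neg_neg] at this

private lemma prim_of (φ ψ : FreeGroup (Fin 2) →* FreeGroup (Fin 2)) (h1 : φ.comp ψ = MonoidHom.id _)
    (h2 : ψ.comp φ = MonoidHom.id _) (w : FreeGroup (Fin 2)) (h : Prim (φ w)) : Prim w := by
  obtain ⟨θ, hθ⟩ := h
  refine ⟨θ.trans (MonoidHom.toMulEquiv ψ φ h1 h2), ?_⟩
  show ψ (θ (FreeGroup.of 0)) = w
  rw [hθ]
  exact congrArg (fun F => F w) (congrArg DFunLike.coe h2)

theorem p_mov : S_mov := by
  have hsc := mov_sc
  intro w
  refine ⟨fun h => ?_, fun h => ?_, fun h => ?_, fun h => ?_, fun h => ?_, fun h => ?_⟩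
  · refine h.mono fun n hn => mov_gen swH (fun n p => (p.2, p.1)) (fun n q => ?_) (fun n _ _ μ _ _ => ?_) w n hn
    · simp [swH]
    · exact Measure.measurePreserving_swap
  · refine h.mono fun n hn => mov_gen (shH 1) (fun n p => (p.1, p.1⁻¹ * p.2)) (fun n q => ?_)
      (fun n _ _ μ _ _ => ?_) w n hn
    · simp [shH]
    · have := hsc n
      exact measurePreserving_prod_inv_mul μ μ
  · refine h.mono fun n hn => mov_gen (shH (-1)) (fun n p => (p.1, p.1 * p.2)) (fun n q => ?_)
      (fun n _ _ μ _ _ => ?_) w n hn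
    · simp [shH]
    · have := hsc n
      exact measurePreserving_prod_mul μ μ
  · exact prim_of swH swH swH_comp swH_comp w h
  · exact prim_of (shH 1) (shH (-1)) (shH_comp 1) (shH_comp' 1) w h
  · refine prim_of (shH (-1)) (shH 1) (shH_comp' 1) (shH_comp 1) w h

end Pool.Agent.EF
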